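import Mathlib

/-!
# Project SE, `q`-th powers in finite fields
-/

set_option autoImplicit false
set_option linter.all false

namespace Pool.Agent.Q198.SE

open Finset

/-- the index of the subgroup of the `q`-th powers is the order of the kernel -/
theorem index_pow (G : Type) [CommGroup G] [Finite G] (q : ℕ) :
    Nat.card (G ⧸ (powMonoidHom q : G →* G).range) = Nat.card (powMonoidHom q : G →* G).ker := by
  have h1 := Subgroup.card_eq_card_quotient_mul_card_subgroup (powMonoidHom q : G →* G).range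
  have h2 := Subgroup.card_eq_card_quotient_mul_card_subgroup (powMonoidHom q : G →* G).ker
  have h3 : Nat.card (G ⧸ (powMonoidHom q : G →* G).ker) = Nat.card (powMonoidHom q : G →* G).range :=
    Nat.card_congr (QuotientGroup.quotientKerEquivRange (powMonoidHom q : G →* G)).toEquiv
  rw [h3] at h2
  have h4 : 0 < Nat.card (powMonoidHom q : G →* G).range := Nat.card_pos
  have h5 : Nat.card (G ⧸ (powMonoidHom q : G →* G).range) * Nat.card (powMonoidHom q : G →* G).range =
      Nat.card (powMonoidHom q : G →* G).ker * Nat.card (powMonoidHom q : G →* G).range := by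
    rw [← h1, h2, mul_comm]
  exact Nat.eq_of_mul_eq_mul_right h4 h5

theorem card_ker_le (l q : ℕ) (hl : l.Prime) (hq : q.Prime) :
    Nat.card (powMonoidHom q : (ZMod l)ˣ →* (ZMod l)ˣ).ker ≤ if l % q = 1 then q else 1 := by
  haveI : Fact l.Prime := ⟨hl⟩
  haveI : NeZero q := ⟨hq.ne_zero⟩
  split_ifs with h
  · have h1 : (powMonoidHom q : (ZMod l)ˣ →* (ZMod l)ˣ).ker = rootsOfUnity q (ZMod l) := by
      ext x
      rw [MonoidHom.mem_ker, powMonoidHom_apply, mem_rootsOfUnity]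
    rw [h1]
    exact card_rootsOfUnity (ZMod l) q
  · have h1 : (powMonoidHom q : (ZMod l)ˣ →* (ZMod l)ˣ).ker = ⊥ := by
      rw [eq_bot_iff]
      intro x hx
      rw [MonoidHom.mem_ker, powMonoidHom_apply] at hx
      rw [Subgroup.mem_bot]
      have h2 : x ^ (l - 1) = 1 := ZMod.units_pow_card_sub_one_eq_one l x
      have h3 : Nat.Coprime q (l - 1) := by
        rw [hq.coprime_iff_not_dvd]
        intro h4
        apply h
        obtain ⟨m, hm⟩ := h4
        have h5 : l = q * m + 1 := by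
          have := hl.one_lt
          omega
        rw [h5, Nat.mul_add_mod, Nat.mod_eq_of_lt hq.one_lt]
      have h4 : orderOf x ∣ Nat.gcd q (l - 1) :=
        Nat.dvd_gcd (orderOf_dvd_of_pow_eq_one hx) (orderOf_dvd_of_pow_eq_one h2)
      rw [h3] at h4
      exact orderOf_eq_one_iff.1 (Nat.dvd_one.1 h4)
    rw [h1, Subgroup.card_bot]

/-- representatives of the classes modulo `q`-th powers -/
theorem reps (l q : ℕ) (hl : l.Prime) (hq : q.Prime) : ∃ E : Finset ℤ, E.card ≤ (if l % q = 1 then q else 1) ∧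
    ∀ c : ℤ, ¬ (l : ℤ) ∣ c → ∃ e ∈ E, ∃ d : ℤ, ¬ (l : ℤ) ∣ e ∧ ¬ (l : ℤ) ∣ d ∧ (l : ℤ) ∣ c - e * d ^ q := by
  classical
  haveI : Fact l.Prime := ⟨hl⟩
  haveI : Fintype ((ZMod l)ˣ ⧸ (powMonoidHom q : (ZMod l)ˣ →* (ZMod l)ˣ).range) := Fintype.ofFinite _
  let g : (ZMod l)ˣ → ℤ := fun x => ((x : ZMod l).val : ℤ)
  have hg : ∀ x, ((g x : ℤ) : ZMod l) = (x : ZMod l) := by
    intro x
    simp only [g]
    rw [Int.cast_natCast, ZMod.natCast_zmod_val]
  have hgl : ∀ x, ¬ (l : ℤ) ∣ g x := by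
    intro x hx
    rw [← ZMod.intCast_zmod_eq_zero_iff_dvd, hg] at hx
    exact x.ne_zero hx
  refine ⟨(univ : Finset ((ZMod l)ˣ ⧸ (powMonoidHom q : (ZMod l)ˣ →* (ZMod l)ˣ).range)).image
    (fun x => g (Quotient.out x)), ?_, ?_⟩
  · refine card_image_le.trans ?_
    rw [card_univ, ← Nat.card_eq_fintype_card]
    exact (index_pow _ q).le.trans (card_ker_le l q hl hq)
  · intro c hc
    have hc0 : ((c : ℤ) : ZMod l) ≠ 0 := fun h => hc ((ZMod.intCast_zmod_eq_zero_iff_dvd c l).1 h)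
    let u : (ZMod l)ˣ := Units.mk0 _ hc0
    let x : (ZMod l)ˣ ⧸ (powMonoidHom q : (ZMod l)ˣ →* (ZMod l)ˣ).range := QuotientGroup.mk u
    have hx : QuotientGroup.mk (Quotient.out x) = x := Quotient.out_eq x
    have h1 : (Quotient.out x)⁻¹ * u ∈ (powMonoidHom q : (ZMod l)ˣ →* (ZMod l)ˣ).range :=
      QuotientGroup.eq.1 hx
    obtain ⟨d, hd⟩ := h1
    rw [powMonoidHom_apply] at hd
    refine ⟨g (Quotient.out x), mem_image_of_mem _ (mem_univ x), g d, hgl _, hgl _, ?_⟩
    rw [← ZMod.intCast_zmod_eq_zero_iff_dvd]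
    push_cast
    rw [hg, hg]
    have h2 : u = Quotient.out x * d ^ q := by
      rw [hd, mul_inv_cancel_left]
    have h3 : ((c : ℤ) : ZMod l) = (u : ZMod l) := rfl
    rw [h3, h2]
    push_cast
    exact sub_self _

/-- the number of the nonzero `q`-th powers of a finite field whose order is one modulo `q` -/
theorem card_pw (k : Type) [CommRing k] [IsDomain k] [Finite k] (q : ℕ) (hq : q.Prime) (h : Nat.card k % q = 1) :
    ({x : k | x ≠ 0 ∧ ∃ s, x = s ^ q}.ncard : ℝ) ≤ (Nat.card k : ℝ) / q := by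
  classical
  haveI := Fintype.ofFinite k
  letI : Field k := Fintype.fieldOfDomain k
  haveI : Finite kˣ := inferInstance
  have hcard : Nat.card kˣ = Nat.card k - 1 := Nat.card_units k
  have hdvd : q ∣ Nat.card kˣ := by
    rw [hcard]
    exact (Nat.modEq_iff_dvd' (Nat.card_pos)).1 (by
      show 1 % q = Nat.card k % q
      rw [h, Nat.mod_eq_of_lt hq.one_lt])
  haveI : Fact q.Prime := ⟨hq⟩
  obtain ⟨g, hg⟩ := exists_prime_orderOf_dvd_card' q hdvd
  have hker : q ≤ Nat.card (powMonoidHom q : kˣ →* kˣ).ker := by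
    have h1 : Subgroup.zpowers g ≤ (powMonoidHom q : kˣ →* kˣ).ker := by
      rw [Subgroup.zpowers_le, MonoidHom.mem_ker, powMonoidHom_apply, ← hg]
      exact pow_orderOf_eq_one g
    have h2 : Nat.card (Subgroup.zpowers g) = q := by rw [Nat.card_zpowers, hg]
    exact h2.symm.le.trans (Nat.card_le_card_of_injective (Subgroup.inclusion h1) (Subgroup.inclusion_injective h1))
  have h2 := Subgroup.card_eq_card_quotient_mul_card_subgroup (powMonoidHom q : kˣ →* kˣ).ker
  have h3 : Nat.card (kˣ ⧸ (powMonoidHom q : kˣ →* kˣ).ker) = Nat.card (powMonoidHom q : kˣ →* kˣ).range :=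
    Nat.card_congr (QuotientGroup.quotientKerEquivRange (powMonoidHom q : kˣ →* kˣ)).toEquiv
  rw [h3] at h2
  have h4 : {x : k | x ≠ 0 ∧ ∃ s, x = s ^ q}.ncard ≤ Nat.card (powMonoidHom q : kˣ →* kˣ).range := by
    have h5 : {x : k | x ≠ 0 ∧ ∃ s, x = s ^ q} ⊆
        Set.range (fun y : (powMonoidHom q : kˣ →* kˣ).range => ((y : kˣ) : k)) := by
      rintro x ⟨hx0, s, rfl⟩
      have hs0 : s ≠ 0 := by
        rintro rfl
        exact hx0 (zero_pow hq.ne_zero)
      refine ⟨⟨(Units.mk0 s hs0) ^ q, Units.mk0 s hs0, rfl⟩, ?_⟩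
      simp
    refine (Set.ncard_le_ncard h5 (Set.toFinite _)).trans ?_
    rw [← Nat.card_coe_set_eq]
    exact Finite.card_range_le _
  have h6 : q * {x : k | x ≠ 0 ∧ ∃ s, x = s ^ q}.ncard ≤ Nat.card k := by
    calc q * {x : k | x ≠ 0 ∧ ∃ s, x = s ^ q}.ncard
        ≤ Nat.card (powMonoidHom q : kˣ →* kˣ).ker * Nat.card (powMonoidHom q : kˣ →* kˣ).range :=
          Nat.mul_le_mul hker h4
      _ = Nat.card kˣ := by rw [h2, mul_comm]
      _ ≤ Nat.card k := by rw [hcard]; omega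
  have hq0 : (0 : ℝ) < q := by exact_mod_cast hq.pos
  rw [le_div_iff₀ hq0, mul_comm]
  exact_mod_cast h6

end Pool.Agent.Q198.SE
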