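import Pool.Agent.Q51.SE.Stm
import Pool.Agent.Q247.EL.CNT
import Pool.Agent.Q198.SE.Pw

/-!
# Project SE (helper51), job CNTQ: the number of the residue classes modulo `l` allowed by the local conditions

Adapted from `Pool/Agent/Q247/EL/CNT.lean` (helper247), which is the case `q = 2`.
-/

set_option autoImplicit false
set_option linter.all false

namespace Pool.Agent.Q198.SE

open Finset NumberField IsDedekindDomain
open Pool.Agent.Q51.EL (Abv N1 Ty1)
open Pool.Agent.Q51.SE (Ty2q Zc tauq S_CNTQ)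
open Pool.Agent.Q247.EL (VV Th S1 S2 int_mem finite_k card_eq_norm S1_card bern finite_VV iInf_VV prod_card le_card)

section

variable (L : Type) [Field L] [NumberField L] {l : ℕ}

open Classical in
theorem S2q_card (q : ℕ) (hq : q.Prime) (hl : l.Prime) (hz : Zc L q l) [Fintype (VV L l)] (T : Set (𝓞 L))
    (hT2 : Ty2q q l T) (v0 : VV L l) : ((S2 L T v0).ncard : ℝ) ≤ if Ideal.absNorm v0.1.asIdeal = l then
      (if l % q = 1 then (q : ℝ) else 1) *
        ∏ v : VV L l, (if v = v0 then (1 : ℝ) else (Nat.card (𝓞 L ⧸ v.1.asIdeal) : ℝ) / q) else 0 := by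
  haveI : ∀ v : VV L l, Finite (𝓞 L ⧸ v.1.asIdeal) := finite_k L
  haveI : ∀ v : VV L l, Fintype (𝓞 L ⧸ v.1.asIdeal) := fun v => Fintype.ofFinite _
  haveI : ∀ v : VV L l, IsDomain (𝓞 L ⧸ v.1.asIdeal) := fun v => by
    haveI := v.1.isPrime
    infer_instance
  have hq0 : (0 : ℝ) < q := by exact_mod_cast hq.pos
  by_cases hn : Ideal.absNorm v0.1.asIdeal = l
  swap
  · rw [if_neg hn]
    have : S2 L T v0 = ∅ := by
      ext x
      simp [S2, hn]
    rw [this]
    simp
  rw [if_pos hn]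
  have hprod0 : 0 ≤ ∏ v : VV L l, (if v = v0 then (1 : ℝ) else (Nat.card (𝓞 L ⧸ v.1.asIdeal) : ℝ) / q) := by
    refine prod_nonneg fun v _ => ?_
    split_ifs <;> positivity
  have hgc0 : (0 : ℝ) ≤ (if l % q = 1 then (q : ℝ) else 1) := by split_ifs <;> positivity
  by_cases hne : (S2 L T v0).Nonempty
  swap
  · rw [Set.not_nonempty_iff_eq_empty] at hne
    rw [hne, Set.ncard_empty, Nat.cast_zero]
    exact mul_nonneg hgc0 hprod0
  obtain ⟨x', _, β', hβ'T, hβ'0, hβ'v, _⟩ := hne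
  obtain ⟨E, hE, heps⟩ := reps l q hl hq
  let Q : ∀ v : VV L l, Finset (𝓞 L ⧸ v.1.asIdeal) := fun v =>
    if v = v0 then {0} else (Set.toFinite ({x : 𝓞 L ⧸ v.1.asIdeal | x ≠ 0 ∧ ∃ s, x = s ^ q})).toFinset
  have hinv : ∀ (v : VV L l) (e : ℤ), ∃ y : 𝓞 L ⧸ v.1.asIdeal, ¬ (l : ℤ) ∣ e →
      Ideal.Quotient.mk v.1.asIdeal (e : 𝓞 L) * y = 1 := by
    intro v e
    by_cases he : (l : ℤ) ∣ e
    · exact ⟨0, fun h => absurd he h⟩
    · haveI := v.1.isMaximal
      obtain ⟨y, hy⟩ := Ideal.Quotient.exists_inv (I := v.1.asIdeal) (a := Ideal.Quotient.mk v.1.asIdeal (e : 𝓞 L))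
        (fun h => he (int_mem L hl v e ((Ideal.Quotient.eq_zero_iff_mem).1 h)))
      exact ⟨y, fun _ => hy⟩
  choose iv hiv using hinv
  let P : ℤ → (∀ v : VV L l, 𝓞 L ⧸ v.1.asIdeal) → (∀ v : VV L l, 𝓞 L ⧸ v.1.asIdeal) := fun e p v =>
    Ideal.Quotient.mk v.1.asIdeal β' * iv v e * p v
  have hsub : S2 L T v0 ⊆ (E.biUnion fun e => (Fintype.piFinset Q).image (P e) :
      Finset (∀ v : VV L l, 𝓞 L ⧸ v.1.asIdeal)) := by
    rintro x ⟨_, β, hβT, hβ0, hβv, rfl⟩
    obtain ⟨c, hc, hg⟩ := hT2 β hβT β' hβ'T v0.1 v0.2 hβ0 hβ'0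
    obtain ⟨e, heE, d, hle, hld, hlc⟩ := heps c hc
    have key : ∀ v : VV L l, ∃ p : 𝓞 L ⧸ v.1.asIdeal, p ∈ Q v ∧
        Ideal.Quotient.mk v.1.asIdeal β' * iv v e * p = Ideal.Quotient.mk v.1.asIdeal β := by
      intro v
      have hEi := hiv v e hle
      by_cases hv : v = v0
      · refine ⟨0, ?_, ?_⟩
        · simp only [Q, if_pos hv]
          simp
        · rw [mul_zero, hv]
          exact ((Ideal.Quotient.eq_zero_iff_mem).2 hβ0).symm
      · haveI := v.1.isMaximal
        have hB : Ideal.Quotient.mk v.1.asIdeal β ≠ 0 := fun h =>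
          hβv v hv ((Ideal.Quotient.eq_zero_iff_mem).1 h)
        have hD : Ideal.Quotient.mk v.1.asIdeal (d : 𝓞 L) ≠ 0 := fun h =>
          hld (int_mem L hl v d ((Ideal.Quotient.eq_zero_iff_mem).1 h))
        obtain ⟨W, hW⟩ := Ideal.Quotient.exists_inv hD
        obtain ⟨g, hg'⟩ := hg v.1 v.2 (fun h => hv (Subtype.ext h))
        have h1 : Ideal.Quotient.mk v.1.asIdeal (c : 𝓞 L) * Ideal.Quotient.mk v.1.asIdeal β =
            Ideal.Quotient.mk v.1.asIdeal β' * Ideal.Quotient.mk v.1.asIdeal g ^ q := by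
          rw [← map_mul, ← map_pow, ← map_mul]
          exact (Ideal.Quotient.eq).2 hg'
        have h2 : Ideal.Quotient.mk v.1.asIdeal (c : 𝓞 L) =
            Ideal.Quotient.mk v.1.asIdeal (e : 𝓞 L) * Ideal.Quotient.mk v.1.asIdeal (d : 𝓞 L) ^ q := by
          rw [← map_pow, ← map_mul, Ideal.Quotient.eq]
          obtain ⟨m, hm⟩ := hlc
          have h3 : (c : 𝓞 L) - (e : 𝓞 L) * (d : 𝓞 L) ^ q = (m : 𝓞 L) * (l : 𝓞 L) := by
            have : ((c - e * d ^ q : ℤ) : 𝓞 L) = ((l * m : ℤ) : 𝓞 L) := by rw [hm]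
            push_cast at this
            rw [this, mul_comm]
          rw [h3]
          exact v.1.asIdeal.mul_mem_left _ v.2
        have h3 : Ideal.Quotient.mk v.1.asIdeal β' * iv v e *
            (Ideal.Quotient.mk v.1.asIdeal g * W) ^ q = Ideal.Quotient.mk v.1.asIdeal β := by
          rw [h2] at h1
          calc Ideal.Quotient.mk v.1.asIdeal β' * iv v e * (Ideal.Quotient.mk v.1.asIdeal g * W) ^ q
              = (Ideal.Quotient.mk v.1.asIdeal β' * Ideal.Quotient.mk v.1.asIdeal g ^ q) * iv v e * W ^ q := by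
                rw [mul_pow]
                ring
            _ = (Ideal.Quotient.mk v.1.asIdeal (e : 𝓞 L) * iv v e) *
                  (Ideal.Quotient.mk v.1.asIdeal (d : 𝓞 L) * W) ^ q * Ideal.Quotient.mk v.1.asIdeal β := by
                rw [← h1, mul_pow]
                ring
            _ = _ := by rw [hW, hEi, one_pow, mul_one, one_mul]
        refine ⟨(Ideal.Quotient.mk v.1.asIdeal g * W) ^ q, ?_, h3⟩
        simp only [Q, if_neg hv]
        rw [Set.Finite.mem_toFinset]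
        refine ⟨?_, _, rfl⟩
        intro h0
        rw [h0, mul_zero] at h3
        exact hB h3.symm
    choose p hp1 hp2 using key
    have hpF : P e p = Th L β := by
      funext v
      exact hp2 v
    have hpQ : p ∈ Fintype.piFinset Q := Fintype.mem_piFinset.2 hp1
    rw [Finset.coe_biUnion]
    simp only [Set.mem_iUnion]
    refine ⟨e, heE, ?_⟩
    rw [Finset.coe_image]
    exact ⟨p, hpQ, hpF⟩
  have h1 : (S2 L T v0).ncard ≤ (if l % q = 1 then q else 1) * (Fintype.piFinset Q).card := by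
    refine (Set.ncard_le_ncard hsub (Set.toFinite _)).trans ?_
    rw [Set.ncard_coe_finset]
    refine card_biUnion_le.trans ((sum_le_sum fun e _ => card_image_le).trans ?_)
    rw [sum_const, smul_eq_mul]
    exact Nat.mul_le_mul_right _ hE
  have h2 : ((Fintype.piFinset Q).card : ℝ) ≤
      ∏ v : VV L l, (if v = v0 then (1 : ℝ) else (Nat.card (𝓞 L ⧸ v.1.asIdeal) : ℝ) / q) := by
    rw [Fintype.card_piFinset]
    push_cast
    refine prod_le_prod (fun v _ => Nat.cast_nonneg _) fun v _ => ?_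
    by_cases hv : v = v0
    · simp only [Q, if_pos hv]
      simp
    · simp only [Q, if_neg hv]
      have hmod : Nat.card (𝓞 L ⧸ v.1.asIdeal) % q = 1 := by
        rw [card_eq_norm L v]
        by_cases hnv : Ideal.absNorm v.1.asIdeal = l
        · rw [hnv]
          exact hz.2 v.1 v0.1 v.2 v0.2 (fun h => hv (Subtype.ext h)) hnv hn
        · exact hz.1 v.1 v.2 hnv
      have h3 := card_pw (𝓞 L ⧸ v.1.asIdeal) q hq hmod
      rw [Set.ncard_eq_toFinset_card _ (Set.toFinite _)] at h3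
      exact h3
  have h3 : ((S2 L T v0).ncard : ℝ) ≤ (if l % q = 1 then (q : ℝ) else 1) * ((Fintype.piFinset Q).card : ℝ) := by
    have h4 : ((S2 L T v0).ncard : ℝ) ≤ (((if l % q = 1 then q else 1) * (Fintype.piFinset Q).card : ℕ) : ℝ) := by
      exact_mod_cast h1
    refine h4.trans (le_of_eq ?_)
    push_cast
    rfl
  exact h3.trans (mul_le_mul_of_nonneg_left h2 hgc0)

end

/-- the numerical bound in the split case -/
theorem num1 (q n : ℕ) (hq : 3 ≤ q) (hn : 4 ≤ n) : (n : ℝ) * (q * (q / (q : ℝ) ^ n)) ≤ 4 / 9 := by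
  have h1 : ∀ m : ℕ, 4 ≤ m → 81 * (m : ℝ) ≤ 4 * 3 ^ m := by
    intro m hm
    induction m, hm using Nat.le_induction with
    | base => norm_num
    | succ m hm ih =>
      rw [pow_succ]
      push_cast
      have : (4 : ℝ) ≤ m := by exact_mod_cast hm
      linarith
  have hq3 : (3 : ℝ) ≤ q := by exact_mod_cast hq
  have hq0 : (0 : ℝ) < q := by linarith
  obtain ⟨m, rfl⟩ := Nat.exists_eq_add_of_le (show 2 ≤ n by omega)
  have e1 : (q : ℝ) * (q / (q : ℝ) ^ (2 + m)) = 1 / (q : ℝ) ^ m := by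
    rw [pow_add]
    field_simp
  have h2 := h1 (2 + m) hn
  rw [pow_add] at h2
  have h3 : (3 : ℝ) ^ m ≤ (q : ℝ) ^ m := pow_le_pow_left₀ (by norm_num) hq3 m
  rw [e1, mul_one_div, div_le_iff₀ (by positivity)]
  linarith

theorem num2 (q N r : ℕ) (hq : 3 ≤ q) (hN : 1 ≤ N) (hr : N + 1 ≤ r) : (N : ℝ) * (q * (q / (q : ℝ) ^ r)) ≤ 1 := by
  have h1 : ∀ m : ℕ, 1 ≤ m → (m : ℝ) * 3 ≤ 3 ^ m := by
    intro m hm
    induction m, hm using Nat.le_induction with
    | base => norm_num
    | succ m hm ih =>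
      rw [pow_succ]
      push_cast
      have : (1 : ℝ) ≤ m := by exact_mod_cast hm
      linarith
  have hq3 : (3 : ℝ) ≤ q := by exact_mod_cast hq
  have hq0 : (0 : ℝ) < q := by linarith
  have h2 : (q : ℝ) ^ (N + 1) ≤ (q : ℝ) ^ r := pow_le_pow_right₀ (by linarith) hr
  obtain ⟨m, rfl⟩ := Nat.exists_eq_add_of_le hN
  have h4 := h1 (1 + m) (by omega)
  rw [pow_add] at h4
  have h3 : (3 : ℝ) ^ m ≤ (q : ℝ) ^ m := pow_le_pow_left₀ (by norm_num) hq3 m
  have e2 : (q : ℝ) ^ (1 + m + 1) = q * (q * (q : ℝ) ^ m) := by ring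
  rw [e2] at h2
  have h5 : (q : ℝ) * (q / (q : ℝ) ^ r) = q * q / (q : ℝ) ^ r := by rw [mul_div_assoc]
  rw [h5, mul_div_assoc', div_le_one (by positivity)]
  have h6 : ((1 + m : ℕ) : ℝ) ≤ (q : ℝ) ^ m := by
    have : ((1 + m : ℕ) : ℝ) ≤ (3 : ℝ) ^ m := by linarith
    linarith
  calc ((1 + m : ℕ) : ℝ) * (q * q) ≤ (q : ℝ) ^ m * (q * q) := mul_le_mul_of_nonneg_right h6 (by positivity)
    _ = q * (q * (q : ℝ) ^ m) := by ring
    _ ≤ _ := h2

open Classical in
theorem cntq : S_CNTQ := by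
  intro L _ _ q l hq hq2 hl hn3 hsq hz T hT1 hT2
  haveI := finite_VV L hl
  haveI : Fintype (VV L l) := Fintype.ofFinite _
  haveI : ∀ v : VV L l, Finite (𝓞 L ⧸ v.1.asIdeal) := finite_k L
  obtain ⟨n, hn⟩ : ∃ n, n = Module.finrank ℚ L := ⟨_, rfl⟩
  obtain ⟨r, hr⟩ : ∃ r, r = Fintype.card (VV L l) := ⟨_, rfl⟩
  obtain ⟨N, hN⟩ : ∃ N, N = N1 L l := ⟨_, rfl⟩
  rw [← hn] at hn3 ⊢
  have hq3 : 3 ≤ q := by
    have := hq.two_le
    omega
  have hqR : (3 : ℝ) ≤ q := by exact_mod_cast hq3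
  have hl0 : (0 : ℝ) < l := by exact_mod_cast hl.pos
  have hl1 : (1 : ℝ) ≤ l := by exact_mod_cast hl.one_lt.le
  have hcardk := prod_card L hl hsq
  have hcardk' : ∏ v : VV L l, (Nat.card (𝓞 L ⧸ v.1.asIdeal) : ℝ) = (l : ℝ) ^ n := by
    rw [hn]
    exact_mod_cast hcardk
  -- number of the primes of norm `l`
  have hNW : N = (univ.filter (fun v : VV L l => Ideal.absNorm v.1.asIdeal = l)).card := by
    rw [hN]
    unfold N1
    rw [← Fintype.card_subtype, ← Nat.card_eq_fintype_card]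
    refine Nat.card_congr
      { toFun := fun v => ⟨⟨v.1, ?_⟩, v.2⟩
        invFun := fun v => ⟨v.1.1, v.2⟩
        left_inv := fun v => rfl
        right_inv := fun v => rfl }
    have h := Ideal.absNorm_mem v.1.asIdeal
    rw [v.2] at h
    exact h
  have hNr : N ≤ r := by
    rw [hNW, hr]
    exact card_filter_le _ _
  have hrn : r ≤ n := by
    have h1 : l ^ r ≤ l ^ n := by
      rw [hn, ← hcardk, hr, ← Finset.card_univ, ← prod_const]
      exact prod_le_prod' fun v _ => le_card L hl v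
    exact (Nat.pow_le_pow_iff_right hl.one_lt).1 h1
  have hNrn : N = r → N = n := by
    intro h
    have h1 : univ.filter (fun v : VV L l => Ideal.absNorm v.1.asIdeal = l) = univ := by
      apply Finset.eq_univ_of_card
      rw [← hNW, h, hr]
    have h2 : ∏ v : VV L l, Nat.card (𝓞 L ⧸ v.1.asIdeal) = ∏ _v : VV L l, l := by
      refine prod_congr rfl fun v _ => ?_
      have h3 : v ∈ univ.filter (fun v : VV L l => Ideal.absNorm v.1.asIdeal = l) := by
        rw [h1]
        exact mem_univ _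
      rw [mem_filter] at h3
      exact (card_eq_norm L v).trans h3.2
    rw [hcardk, prod_const, card_univ, ← hr, ← hn] at h2
    rw [h]
    exact (Nat.pow_right_injective hl.two_le h2).symm
  -- two primes of norm `l`
  have hNl : 2 ≤ N → l % q = 1 := by
    intro h
    rw [hNW] at h
    obtain ⟨v, hv, w, hw, hvw⟩ := Finset.one_lt_card.1 h
    exact hz.2 v.1 w.1 v.2 w.2 (fun h => hvw (Subtype.ext h)) (mem_filter.1 hv).2 (mem_filter.1 hw).2
  -- pass to the product of the residue fields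
  have hA : (Ideal.Quotient.mk (Ideal.span {(l : 𝓞 L)}) '' T).ncard ≤ (Th L (l := l) '' T).ncard := by
    let h : (∀ v : VV L l, 𝓞 L ⧸ v.1.asIdeal) → 𝓞 L ⧸ Ideal.span {(l : 𝓞 L)} := fun y =>
      if hy : ∃ β, Th L β = y then Ideal.Quotient.mk _ hy.choose else 0
    have h1 : ∀ β, h (Th L β) = Ideal.Quotient.mk (Ideal.span {(l : 𝓞 L)}) β := by
      intro β
      have hy : ∃ β', Th L (l := l) β' = Th L β := ⟨β, rfl⟩
      simp only [h]
      rw [dif_pos hy]
      have h2 := hy.choose_spec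
      rw [Ideal.Quotient.eq, ← iInf_VV L hl hsq, Ideal.mem_iInf]
      intro v
      exact (Ideal.Quotient.eq).1 (congrFun h2 v)
    have h2 : Ideal.Quotient.mk (Ideal.span {(l : 𝓞 L)}) '' T = h '' (Th L (l := l) '' T) := by
      rw [Set.image_image]
      exact Set.image_congr fun β _ => (h1 β).symm
    rw [h2]
    exact Set.ncard_image_le (Set.toFinite _)
  have hB : Th L (l := l) '' T ⊆ S1 L l ∪ ⋃ v0 : VV L l, S2 L T v0 := by
    rintro _ ⟨β, hβ, rfl⟩
    rcases hT1 β hβ with h | ⟨v0, hv0, hn0, hβ0, h⟩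
    · left
      intro v h0
      exact h v.1 v.2 ((Ideal.Quotient.eq_zero_iff_mem).1 h0)
    · right
      rw [Set.mem_iUnion]
      refine ⟨⟨v0, hv0⟩, hn0, β, hβ, hβ0, ?_, rfl⟩
      intro v hv
      exact h v.1 v.2 (fun h' => hv (Subtype.ext h'))
  have hC : ((Ideal.Quotient.mk (Ideal.span {(l : 𝓞 L)}) '' T).ncard : ℝ) ≤
      (S1 L l).ncard + ∑ v0 : VV L l, ((S2 L T v0).ncard : ℝ) := by
    have h1 : (Ideal.Quotient.mk (Ideal.span {(l : 𝓞 L)}) '' T).ncard ≤
        (S1 L l).ncard + ∑ v0 : VV L l, (S2 L T v0).ncard := by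
      refine hA.trans ((Set.ncard_le_ncard hB (Set.toFinite _)).trans ?_)
      refine (Set.ncard_union_le _ _).trans ?_
      exact Nat.add_le_add_left (Set.ncard_iUnion_le_of_fintype _) _
    exact_mod_cast h1
  -- first kind
  have hD : ((S1 L l).ncard : ℝ) ≤ (l : ℝ) ^ n * (1 - 1 / (l : ℝ)) ^ N := by
    refine (S1_card L hl).trans (le_of_eq ?_)
    rw [prod_mul_distrib, hcardk', ← prod_filter, prod_const, ← hNW]
  -- second kind
  set gc : ℝ := if l % q = 1 then (q : ℝ) else 1 with hgc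
  have hq0 : (0 : ℝ) < q := by linarith
  have hE : ∑ v0 : VV L l, ((S2 L T v0).ncard : ℝ) ≤ N * ((l : ℝ) ^ n * (gc * (q / (q : ℝ) ^ r) / l)) := by
    have h1 : ∀ v0 : VV L l, ((S2 L T v0).ncard : ℝ) ≤
        if Ideal.absNorm v0.1.asIdeal = l then (l : ℝ) ^ n * (gc * (q / (q : ℝ) ^ r) / l) else 0 := by
      intro v0
      refine (S2q_card L q hq hl hz T hT2 v0).trans ?_
      by_cases h : Ideal.absNorm v0.1.asIdeal = l
      · rw [if_pos h, if_pos h, ← hgc]
        have h5 : (Nat.card (𝓞 L ⧸ v0.1.asIdeal) : ℝ) = l := by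
          exact_mod_cast (card_eq_norm L v0).trans h
        have h2 : (∏ v : VV L l, (if v = v0 then (1 : ℝ) else (Nat.card (𝓞 L ⧸ v.1.asIdeal) : ℝ) / q)) *
            ((l : ℝ) / q) = (l : ℝ) ^ n / q ^ r := by
          have h3 : ∏ v : VV L l, ((Nat.card (𝓞 L ⧸ v.1.asIdeal) : ℝ) / q) = (l : ℝ) ^ n / q ^ r := by
            rw [prod_div_distrib, hcardk', prod_const, card_univ, hr]
          rw [← h3, ← h5]
          have h4 : ∏ v : VV L l, (if v = v0 then (Nat.card (𝓞 L ⧸ v.1.asIdeal) : ℝ) / q else 1) =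
              (Nat.card (𝓞 L ⧸ v0.1.asIdeal) : ℝ) / q := by
            rw [prod_ite_eq' univ v0]
            simp
          rw [← h4, ← prod_mul_distrib]
          refine prod_congr rfl fun v _ => ?_
          split_ifs <;> ring
        have h6 : ∏ v : VV L l, (if v = v0 then (1 : ℝ) else (Nat.card (𝓞 L ⧸ v.1.asIdeal) : ℝ) / q) =
            (l : ℝ) ^ n / q ^ r / (l / q) := by
          rw [eq_div_iff (by positivity)]
          exact h2
        rw [h6]
        apply le_of_eq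
        field_simp
      · rw [if_neg h, if_neg h]
    refine (sum_le_sum fun v0 _ => h1 v0).trans (le_of_eq ?_)
    rw [← sum_filter, sum_const, ← hNW, nsmul_eq_mul]
  -- the constant
  have hF : (N : ℝ) * (gc * (q / (q : ℝ) ^ r)) ≤ tauq L q l := by
    unfold tauq
    rw [← hN, ← hn]
    split_ifs with h1 h2 h3
    · rw [h1]
      simp
    · have h4 : l % q = 1 := hNl (by omega)
      have h5 : r = n := by omega
      rw [hgc, if_pos h4, h2.1, h5]
      exact num1 q n hq3 h2.2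
    · have h4 : N = 1 := by
        by_contra h
        exact h3 (hNl (by omega))
      have h5 : 2 ≤ r := by
        by_contra h
        have h6 := hNrn (by omega)
        omega
      rw [hgc, if_neg h3, h4]
      push_cast
      rw [one_mul, one_mul]
      have h6 : (q : ℝ) ^ 2 ≤ (q : ℝ) ^ r := pow_le_pow_right₀ (by linarith) h5
      rw [div_le_div_iff₀ (by positivity) (by norm_num)]
      nlinarith
    · push Not at h3
      rw [hgc, if_pos h3]
      rcases lt_or_eq_of_le hNr with h4 | h4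
      · exact num2 q N r hq3 (by omega) h4
      · have h5 := hNrn h4
        have h6 : n = 3 := by
          by_contra h
          exact h2 ⟨h5, by omega⟩
        have h7 : r = 3 := by omega
        have h8 : N = 3 := by omega
        rw [h7, h8]
        have e1 : ((3 : ℕ) : ℝ) * (q * (q / (q : ℝ) ^ 3)) = 3 / q := by
          push_cast
          field_simp
        rw [e1, div_le_one hq0]
        exact hqR
  have hG := bern (1 / (l : ℝ)) (by positivity) (by rw [div_le_one hl0]; exact hl1) N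
  have hNn : (N : ℝ) ^ 2 ≤ (n : ℝ) ^ 2 := by
    have : (N : ℝ) ≤ n := by exact_mod_cast hNr.trans hrn
    exact pow_le_pow_left₀ (Nat.cast_nonneg _) this 2
  refine (hC.trans (add_le_add hD hE)).trans ?_
  have e1 : (N : ℝ) * ((l : ℝ) ^ n * (gc * (q / (q : ℝ) ^ r) / l)) =
      (l : ℝ) ^ n * (((N : ℝ) * (gc * (q / (q : ℝ) ^ r))) / l) := by ring
  rw [e1, ← mul_add]
  refine mul_le_mul_of_nonneg_left ?_ (by positivity)
  have h7 : ((N : ℝ) * (gc * (q / (q : ℝ) ^ r))) / l ≤ tauq L q l / l := div_le_div_of_nonneg_right hF hl0.le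
  have h8 : (N : ℝ) ^ 2 * (1 / (l : ℝ)) ^ 2 ≤ (n : ℝ) ^ 2 / (l : ℝ) ^ 2 := by
    rw [one_div, inv_pow, ← div_eq_mul_inv]
    exact div_le_div_of_nonneg_right hNn (by positivity)
  rw [← hN]
  have e2 : ((N : ℝ) - tauq L q l) / l = N * (1 / l) - tauq L q l / l := by ring
  rw [e2]
  linarith

end Pool.Agent.Q198.SE
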