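import Mathlib

/-!
The many-body ground-state energy on the torus and the Simple equation: definitions.
-/

set_option autoImplicit false

open MeasureTheory Filter Topology Laplacian InnerProductSpace
open scoped ContDiff

namespace Q198.SE

/-- Euclidean space. -/
abbrev E3 := EuclideanSpace ℝ (Fin 3)

/-- The vector of `ℝ³` with integer coordinates `n`, times `L`. -/
noncomputable def latt (L : ℝ) (n : Fin 3 → ℤ) : E3 := WithLp.toLp 2 fun k => L * n k

/-- The pair potential on the torus `ℝ³/(Lℤ)³`. -/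
noncomputable def perPot (v : E3 → ℝ) (L : ℝ) (x : E3) : ℝ := ∑' n : Fin 3 → ℤ, v (x + latt L n)

/-- The fundamental cell of the torus, for `N` particles. -/
def cell (N : ℕ) (L : ℝ) : Set (Fin N → E3) := {x | ∀ i k, x i k ∈ Set.Ico 0 L}

/-- Smooth normalized bosonic wave functions of `N` particles on the torus `ℝ³/(Lℤ)³`. -/
structure IsWave (N : ℕ) (L : ℝ) (ψ : (Fin N → E3) → ℂ) : Prop where
  smooth : ContDiff ℝ ∞ ψ
  periodic : ∀ (i : Fin N) (n : Fin 3 → ℤ) (x : Fin N → E3), ψ (x + Pi.single i (latt L n)) = ψ x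
  symm : ∀ (σ : Equiv.Perm (Fin N)) (x : Fin N → E3), ψ (x ∘ σ) = ψ x
  normalized : ∫ x in cell N L, ‖ψ x‖ ^ 2 = 1

/-- The energy `⟨ψ, H_N ψ⟩` for `H_N = -1/2 ∑ Δ_i + ∑_{i<j} v(x_i - x_j)` on the torus. -/
noncomputable def energy (v : E3 → ℝ) (N : ℕ) (L : ℝ) (ψ : (Fin N → E3) → ℂ) : ℝ :=
  ∫ x in cell N L,
    (1 / 2 * ∑ i, ∑ k, ‖fderiv ℝ ψ x (Pi.single i (EuclideanSpace.single k (1 : ℝ)))‖ ^ 2 +
      (∑ i, ∑ j ∈ Finset.Ioi i, perPot v L (x i - x j)) * ‖ψ x‖ ^ 2)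

/-- The ground-state energy `E_0(N, V)`, `V = L³` (the bottom of the spectrum of `H_N`, by the
variational principle). -/
noncomputable def groundEnergy (v : E3 → ℝ) (N : ℕ) (L : ℝ) : ℝ :=
  sInf {E | ∃ ψ, IsWave N L ψ ∧ E = energy v N L ψ}

/-- `e₀` is the ground-state energy per particle in the thermodynamic limit at density `ρ`. -/
def IsEnergyPerParticle (v : E3 → ℝ) (ρ e₀ : ℝ) : Prop :=
  Tendsto (fun N : ℕ => groundEnergy v N (((N : ℝ) / ρ) ^ (1 / 3 : ℝ)) / N) atTop (𝓝 e₀)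

/-- `(u, e)` is a (classical) solution of the Simple equation at density `ρ`. -/
structure IsSimpleSolution (v : E3 → ℝ) (ρ : ℝ) (u : E3 → ℝ) (e : ℝ) : Prop where
  smooth : ContDiff ℝ ∞ u
  integrable : Integrable u
  equation : ∀ x, -(Δ u x) + 4 * e * u x = (1 - u x) * v x + 2 * e * ρ * ∫ y, u y * u (x - y)
  energy_eq : e = ρ / 2 * ∫ x, (1 - u x) * v x

end Q198.SE
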