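import Pool.Agent.Q51.SE.Stm
import Pool.Agent.Y405.CQ.MER

/-!
# Project SE (helper51), job M3: Mertens for the primes congruent to two modulo three, weak form

From the theorem `mertens_ap` of `Pool/Agent/Y405/CQ/MER.lean`.
-/

set_option autoImplicit false
set_option linter.all false

namespace Pool.Agent.Q198.SE

open Finset
open Pool.Agent.Q51.EL (pr)
open Pool.Agent.Q51.SE (S_M3)

theorem m3 : S_M3 := by
  obtain ⟨C, hC, h⟩ := Pool.Agent.Y405.CQ.mertens_ap 3 (by norm_num) 2 (by norm_num) (by decide)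
  refine ⟨1 / 2, C + 1, by norm_num, fun Y hY => ?_⟩
  set N := ⌊Y⌋₊ with hN
  have hN3 : 3 ≤ N := Nat.le_floor (by exact_mod_cast hY)
  have hN3' : (3 : ℝ) ≤ N := by exact_mod_cast hN3
  have h1 := (abs_le.1 (h N hN3)).1
  have htot : (Nat.totient 3 : ℝ) = 2 := by
    have : Nat.totient 3 = 2 := by decide
    rw [this]
    norm_num
  rw [htot] at h1
  have h2 : (pr Y).filter (fun l => l % 3 = 2) = (Icc 1 N).filter (fun p => p.Prime ∧ p % 3 = 2) := by
    unfold pr
    rw [filter_filter]
  rw [h2]
  have h3 : Y < N + 1 := Nat.lt_floor_add_one Y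
  have hlogN : 1 ≤ Real.log N := by
    rw [Real.le_log_iff_exp_le (by linarith)]
    exact Real.exp_one_lt_three.le.trans hN3'
  have h4 : Real.log Y ≤ 2 * Real.log N := by
    have h5 : Y ≤ (N : ℝ) ^ 2 := by nlinarith
    have h6 := Real.log_le_log (by linarith) h5
    rw [Real.log_pow] at h6
    exact_mod_cast h6
  have hlogY : 0 < Real.log Y := Real.log_pos (by linarith)
  have h7 : Real.log (Real.log Y) ≤ Real.log 2 + Real.log (Real.log N) := by
    rw [← Real.log_mul (by norm_num) (by linarith)]
    exact Real.log_le_log hlogY h4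
  have h8 : Real.log 2 ≤ 1 := by
    have := Real.log_two_lt_d9
    linarith
  linarith

end Pool.Agent.Q198.SE
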