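import Pool.Agent.Q198.SE.Defs

set_option autoImplicit false

open MeasureTheory Filter Topology Laplacian InnerProductSpace Real
open scoped ContDiff

namespace Q198.SE

/-- The function `exp (4 - b |x|²)`. -/
noncomputable def U (b : ℝ) (x : E3) : ℝ := exp (4 - b * ‖x‖ ^ 2)

/-- The exponent. -/
noncomputable def W (b : ℝ) (x : E3) : ℝ := (4 - b * ‖x‖ ^ 2) / 2

theorem U_eq (b : ℝ) (x : E3) : U b x = exp (W b x) ^ 2 := by
  unfold U W
  rw [← Real.exp_nat_mul]
  congr 1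
  push_cast
  ring

/-- The number `ε`. -/
noncomputable def eps : ℝ := 10 / (exp 2 / √2 - 4)

/-- The number `κ`. -/
noncomputable def kap : ℝ := 10 + 4 * eps

theorem exp2_lower : (7.38 : ℝ) < exp 2 := by
  have h := Real.exp_one_gt_d9
  have h2 : exp 2 = exp 1 * exp 1 := by rw [← Real.exp_add]; norm_num
  rw [h2]
  nlinarith

theorem exp2_upper : exp 2 < (7.4 : ℝ) := by
  have h := Real.exp_one_lt_d9
  have h0 := Real.exp_pos 1
  have h2 : exp 2 = exp 1 * exp 1 := by rw [← Real.exp_add]; norm_num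
  rw [h2]
  nlinarith

theorem den_bounds : 0 < exp 2 / √2 - 4 ∧ exp 2 / √2 - 4 < 5 / 2 := by
  have h2 : (0 : ℝ) < √2 := by positivity
  have hs : √2 ^ 2 = 2 := Real.sq_sqrt (by norm_num)
  have hs1 : √2 < 1.4143 := by
    rw [Real.sqrt_lt' (by norm_num)]
    norm_num
  have hs2 : 1.4142 < √2 := by
    rw [Real.lt_sqrt (by norm_num)]
    norm_num
  constructor
  · rw [sub_pos, lt_div_iff₀ h2]
    have := exp2_lower
    linarith
  · rw [sub_lt_iff_lt_add, div_lt_iff₀ h2]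
    have := exp2_upper
    linarith

theorem eps_gt : 4 < eps := by
  unfold eps
  obtain ⟨h1, h2⟩ := den_bounds
  rw [lt_div_iff₀ h1]
  linarith

theorem eps_pos : 0 < eps := by linarith [eps_gt]

theorem kap_eq : eps * exp 2 / √2 = kap := by
  unfold kap
  obtain ⟨h1, -⟩ := den_bounds
  have h3 : eps * (exp 2 / √2 - 4) = 10 := by
    unfold eps
    exact div_mul_cancel₀ _ h1.ne'
  linear_combination h3

theorem kap_gt : 24 < kap := by
  unfold kap
  linarith [eps_gt]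

/-- The numerator of the potential. -/
noncomputable def S (b : ℝ) (x : E3) : ℝ :=
  b * exp (W b x) * (kap * (1 - exp (W b x)) + 8 * exp (W b x) * W b x)

/-- The potential. -/
noncomputable def V (b : ℝ) (x : E3) : ℝ := S b x / (1 - U b x)

theorem mul_V (b : ℝ) (x : E3) : (1 - U b x) * V b x = S b x := by
  unfold V
  by_cases h : 1 - U b x = 0
  · rw [h, zero_mul]
    have h1 : exp (W b x) = 1 := by
      have h2 : exp (W b x) ^ 2 = 1 := by rw [← U_eq]; linarith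
      exact (pow_eq_one_iff_of_nonneg (exp_pos _).le two_ne_zero).1 h2
    have h3 : W b x = 0 := by
      rw [← Real.exp_eq_one_iff]
      exact h1
    unfold S
    rw [h3, exp_zero]
    ring
  · rw [mul_div_cancel₀ _ h]

/-- The key elementary inequality. -/
theorem bounds {w : ℝ} (hw : w ≤ 2) (hw1 : exp w ≠ 1) :
    0 ≤ kap + 8 * exp w * w / (1 - exp w) ∧ 8 * exp w * w / (1 - exp w) ≤ 0 := by
  have hy := exp_pos w
  have hk := kap_gt
  rcases lt_trichotomy w 0 with h | h | h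
  · -- negative exponent
    have h1 : exp w < 1 := by rw [Real.exp_lt_one_iff]; exact h
    have h2 : 0 < 1 - exp w := by linarith
    constructor
    · have h3 : -8 ≤ 8 * exp w * w / (1 - exp w) := by
        rw [le_div_iff₀ h2]
        have h4 := Real.add_one_le_exp (-w)
        have h5 : exp w * exp (-w) = 1 := by rw [← exp_add, add_neg_cancel, exp_zero]
        nlinarith
      linarith
    · apply div_nonpos_of_nonpos_of_nonneg _ h2.le
      nlinarith
  · rw [h, exp_zero] at hw1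
    exact absurd rfl hw1
  · have h1 : 1 < exp w := by rw [Real.one_lt_exp_iff]; exact h
    have h2 : 1 - exp w < 0 := by linarith
    constructor
    · have h3 : -24 ≤ 8 * exp w * w / (1 - exp w) := by
        rw [le_div_iff_of_neg h2]
        have h4 := Real.add_one_le_exp w
        nlinarith
      linarith
    · apply div_nonpos_of_nonneg_of_nonpos _ h2.le
      positivity

theorem W_le {b : ℝ} (hb : 0 < b) (x : E3) : W b x ≤ 2 := by
  unfold W
  have : 0 ≤ b * ‖x‖ ^ 2 := by positivity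
  linarith

theorem V_form {b : ℝ} {x : E3} (h : exp (W b x) ≠ 1) :
    V b x = b * exp (W b x) / (1 + exp (W b x)) *
      (kap + 8 * exp (W b x) * W b x / (1 - exp (W b x))) := by
  have hy := exp_pos (W b x)
  have h1 : 1 - exp (W b x) ≠ 0 := sub_ne_zero.2 h.symm
  have h2 : 1 - exp (W b x) ^ 2 ≠ 0 := by
    intro h0
    apply h
    have h3 : exp (W b x) ^ 2 = 1 := by linarith
    exact (pow_eq_one_iff_of_nonneg hy.le two_ne_zero).1 h3
  have h3 : 1 - exp (W b x) ^ 2 = (1 - exp (W b x)) * (1 + exp (W b x)) := by ring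
  unfold V S
  rw [U_eq, h3]
  field_simp

theorem V_bounds {b : ℝ} (hb : 0 < b) (x : E3) :
    0 ≤ V b x ∧ V b x ≤ b * kap * exp (W b x) := by
  have hy := exp_pos (W b x)
  have hk := kap_gt
  by_cases h : exp (W b x) = 1
  · have h1 : V b x = 0 := by
      unfold V
      rw [U_eq, h]
      norm_num
    rw [h1]
    exact ⟨le_rfl, by positivity⟩
  · obtain ⟨h1, h2⟩ := bounds (W_le hb x) h
    rw [V_form h]
    constructor
    · positivity
    · have h3 : b * exp (W b x) / (1 + exp (W b x)) ≤ b * exp (W b x) := by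
        apply div_le_self (by positivity)
        linarith
      calc _ ≤ b * exp (W b x) * (kap + 8 * exp (W b x) * W b x / (1 - exp (W b x))) :=
            mul_le_mul_of_nonneg_right h3 h1
        _ ≤ b * exp (W b x) * kap := by
            apply mul_le_mul_of_nonneg_left _ (by positivity)
            linarith
        _ = _ := by ring

/-! ### Gaussian integrals -/

theorem integrable_gauss {b : ℝ} (hb : 0 < b) : Integrable fun x : E3 => exp (-b * ‖x‖ ^ 2) := by
  by_contra h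
  have h1 := GaussianFourier.integral_rexp_neg_mul_sq_norm (V := E3) hb
  rw [integral_undef h] at h1
  have h2 : (0 : ℝ) < (π / b) ^ (Module.finrank ℝ E3 / 2 : ℝ) := by positivity
  exact h2.ne h1

theorem integral_gauss {b : ℝ} (hb : 0 < b) :
    ∫ x : E3, exp (-b * ‖x‖ ^ 2) = (π / b) ^ (3 / 2 : ℝ) := by
  rw [GaussianFourier.integral_rexp_neg_mul_sq_norm hb]
  simp

theorem integrable_sq_gauss {b : ℝ} (hb : 0 < b) :
    Integrable fun x : E3 => ‖x‖ ^ 2 * exp (-b * ‖x‖ ^ 2) := by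
  have h1 := (integrable_gauss (half_pos hb)).const_mul (2 / b)
  refine h1.mono' (by fun_prop) (ae_of_all _ fun x => ?_)
  rw [Real.norm_of_nonneg (by positivity)]
  have h2 := Real.add_one_le_exp (b / 2 * ‖x‖ ^ 2)
  have h3 : exp (-(b / 2) * ‖x‖ ^ 2) = exp (b / 2 * ‖x‖ ^ 2) * exp (-b * ‖x‖ ^ 2) := by
    rw [← exp_add]
    congr 1
    ring
  rw [h3]
  have h4 : ‖x‖ ^ 2 ≤ 2 / b * exp (b / 2 * ‖x‖ ^ 2) := by
    rw [div_mul_eq_mul_div, le_div_iff₀ hb]
    linarith
  calc _ ≤ 2 / b * exp (b / 2 * ‖x‖ ^ 2) * exp (-b * ‖x‖ ^ 2) :=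
        mul_le_mul_of_nonneg_right h4 (exp_pos _).le
    _ = _ := by ring

theorem integral_sq_gauss {b : ℝ} (hb : 0 < b) :
    ∫ x : E3, ‖x‖ ^ 2 * exp (-b * ‖x‖ ^ 2) = 3 / (2 * b) * ∫ x : E3, exp (-b * ‖x‖ ^ 2) := by
  have e1 := integral_fun_norm_addHaar (volume : Measure E3) (fun r => r ^ 2 * exp (-b * r ^ 2))
  have e2 := integral_fun_norm_addHaar (volume : Measure E3) (fun r => exp (-b * r ^ 2))
  rw [e1, e2]
  have hd : Module.finrank ℝ E3 = 3 := by simp
  have key : ∫ y in Set.Ioi (0 : ℝ), y ^ (Module.finrank ℝ E3 - 1) • (y ^ 2 * exp (-b * y ^ 2)) =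
      3 / (2 * b) * ∫ y in Set.Ioi (0 : ℝ), y ^ (Module.finrank ℝ E3 - 1) • exp (-b * y ^ 2) := by
    have a1 : ∫ y in Set.Ioi (0 : ℝ), y ^ (Module.finrank ℝ E3 - 1) • (y ^ 2 * exp (-b * y ^ 2)) =
        ∫ y in Set.Ioi (0 : ℝ), y ^ (4 : ℝ) * exp (-b * y ^ (2 : ℝ)) := by
      apply setIntegral_congr_fun measurableSet_Ioi
      intro y _
      have : y ^ (4 : ℝ) = y ^ (4 : ℕ) := by
        rw [← Real.rpow_natCast]; norm_num
      simp only [hd, smul_eq_mul, this, Real.rpow_two]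
      ring
    have a2 : ∫ y in Set.Ioi (0 : ℝ), y ^ (Module.finrank ℝ E3 - 1) • exp (-b * y ^ 2) =
        ∫ y in Set.Ioi (0 : ℝ), y ^ (2 : ℝ) * exp (-b * y ^ (2 : ℝ)) := by
      apply setIntegral_congr_fun measurableSet_Ioi
      intro y _
      simp only [hd, smul_eq_mul, Real.rpow_two]
    rw [a1, a2, integral_rpow_mul_exp_neg_mul_rpow two_pos (by norm_num) hb,
      integral_rpow_mul_exp_neg_mul_rpow two_pos (by norm_num) hb]
    have g : Gamma ((4 + 1) / 2) = 3 / 2 * Gamma ((2 + 1) / 2) := by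
      have : ((4 : ℝ) + 1) / 2 = 3 / 2 + 1 := by norm_num
      rw [this, Real.Gamma_add_one (by norm_num)]
      norm_num
    have g2 : b ^ (-((4 : ℝ) + 1) / 2) = b ^ (-((2 : ℝ) + 1) / 2) / b := by
      have : (-((4 : ℝ) + 1) / 2) = -((2 : ℝ) + 1) / 2 - 1 := by norm_num
      rw [this, Real.rpow_sub_one hb.ne']
    rw [g, g2]
    field_simp
  rw [key]
  simp only [nsmul_eq_mul, smul_eq_mul]
  ring

theorem contDiff_U (b : ℝ) : ContDiff ℝ ∞ (U b) := by
  unfold U
  exact (contDiff_const.sub (contDiff_const.mul (contDiff_norm_sq ℝ))).exp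

theorem fderiv_U (b : ℝ) (x : E3) : fderiv ℝ (U b) x = (-2 * b * U b x) • innerSL ℝ x := by
  have h1 : HasFDerivAt (fun x : E3 => ‖x‖ ^ 2) ((2 : ℝ) • innerSL ℝ x) x := by
    have h := (hasStrictFDerivAt_norm_sq x).hasFDerivAt
    refine h.congr_fderiv ?_
    rw [two_smul, two_smul]
  have h2 : HasFDerivAt (fun x : E3 => 4 - b * ‖x‖ ^ 2) (-(b • ((2 : ℝ) • innerSL ℝ x))) x :=
    (h1.const_mul b).const_sub 4
  have h3 := h2.exp
  change fderiv ℝ (fun x : E3 => exp (4 - b * ‖x‖ ^ 2)) x = _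
  rw [h3.fderiv]
  unfold U
  ext v
  simp only [ContinuousLinearMap.smul_apply, ContinuousLinearMap.neg_apply, smul_eq_mul]
  ring

theorem laplacian_U (b : ℝ) (x : E3) :
    Δ (U b) x = (4 * b ^ 2 * ‖x‖ ^ 2 - 6 * b) * U b x := by
  have hf : fderiv ℝ (U b) = fun x => (-2 * b * U b x) • innerSL ℝ x := by
    funext y
    exact fderiv_U b y
  have h2 : ∀ v : E3, fderiv ℝ (fderiv ℝ (U b)) x v v =
      4 * b ^ 2 * U b x * inner ℝ x v ^ 2 - 2 * b * U b x * ‖v‖ ^ 2 := by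
    intro v
    rw [hf]
    have hU : HasFDerivAt (fun x => -2 * b * U b x) ((-2 * b) • fderiv ℝ (U b) x) x :=
      (((contDiff_U b).differentiable (by simp)) x).hasFDerivAt.const_mul (-2 * b)
    have hI : HasFDerivAt (fun x : E3 => innerSL ℝ x) (innerSL ℝ : E3 →L[ℝ] E3 →L[ℝ] ℝ) x :=
      (innerSL ℝ : E3 →L[ℝ] E3 →L[ℝ] ℝ).hasFDerivAt
    have h3 : HasFDerivAt (fun x => (-2 * b * U b x) • innerSL ℝ x) _ x := hU.smul hI
    rw [h3.fderiv, fderiv_U]
    have hv : (innerSL ℝ v) v = ‖v‖ ^ 2 := real_inner_self_eq_norm_sq v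
    simp only [ContinuousLinearMap.add_apply, ContinuousLinearMap.smul_apply,
      ContinuousLinearMap.smulRight_apply, innerSL_apply_apply, smul_eq_mul]
    change _ * (innerSL ℝ v) v + _ = _
    rw [hv]
    ring
  have hx : ‖x‖ ^ 2 = x 0 ^ 2 + x 1 ^ 2 + x 2 ^ 2 := by
    rw [EuclideanSpace.norm_sq_eq, Fin.sum_univ_three]
    simp only [Real.norm_eq_abs, sq_abs]
  rw [laplacian_eq_iteratedFDeriv_orthonormalBasis (U b) (EuclideanSpace.basisFun (Fin 3) ℝ)]
  simp only [iteratedFDeriv_two_apply, Matrix.cons_val_zero, Matrix.cons_val_one, h2]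
  rw [Fin.sum_univ_three, hx]
  simp only [EuclideanSpace.basisFun_apply, PiLp.norm_single, norm_one,
    EuclideanSpace.inner_single_right, conj_trivial, one_mul]
  ring

theorem integrable_U {b : ℝ} (hb : 0 < b) : Integrable (U b) := by
  have h := (integrable_gauss hb).const_mul (exp 4)
  refine h.congr (ae_of_all _ fun x => ?_)
  unfold U
  simp only
  rw [← exp_add]
  congr 1
  ring

/-- The density. -/
noncomputable def rho (b : ℝ) : ℝ := (b / π) ^ (3 / 2 : ℝ) * exp (-4)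

theorem conv_U {b : ℝ} (hb : 0 < b) (x : E3) :
    ∫ y, U b y * U b (x - y) = exp 6 * (π / (2 * b)) ^ (3 / 2 : ℝ) * exp (W b x) := by
  have h1 : ∀ y : E3, U b y * U b (x - y) =
      exp 6 * exp (W b x) * exp (-(2 * b) * ‖y - (1 / 2 : ℝ) • x‖ ^ 2) := by
    intro y
    unfold U W
    rw [← exp_add, ← exp_add, ← exp_add]
    congr 1
    have e1 : ‖x - y‖ ^ 2 = ‖x‖ ^ 2 - 2 * inner ℝ x y + ‖y‖ ^ 2 := norm_sub_sq_real x y
    have e2 : ‖y - (1 / 2 : ℝ) • x‖ ^ 2 = ‖y‖ ^ 2 - 2 * inner ℝ y ((1 / 2 : ℝ) • x) +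
      ‖(1 / 2 : ℝ) • x‖ ^ 2 := norm_sub_sq_real _ _
    rw [e1, e2, inner_smul_right, norm_smul, real_inner_comm y x, Real.norm_of_nonneg (by norm_num)]
    ring
  simp only [h1]
  rw [integral_const_mul, integral_sub_right_eq_self (fun y : E3 => exp (-(2 * b) * ‖y‖ ^ 2)),
    integral_gauss (by positivity)]
  ring

theorem pow_aux {b : ℝ} (hb : 0 < b) :
    (b / π) ^ (3 / 2 : ℝ) * (π / (2 * b)) ^ (3 / 2 : ℝ) = 1 / (2 * √2) := by
  have hpi := Real.pi_pos
  rw [← Real.mul_rpow (by positivity) (by positivity)]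
  have : b / π * (π / (2 * b)) = 1 / 2 := by field_simp
  rw [this, Real.div_rpow (by norm_num) (by norm_num), Real.one_rpow]
  congr 1
  have : (3 / 2 : ℝ) = 1 + 1 / 2 := by norm_num
  rw [this, Real.rpow_add (by norm_num), Real.rpow_one, Real.sqrt_eq_rpow]

theorem pow_aux2 {b : ℝ} (hb : 0 < b) :
    (b / π) ^ (3 / 2 : ℝ) * (π / b) ^ (3 / 2 : ℝ) = 1 := by
  have hpi := Real.pi_pos
  rw [← Real.mul_rpow (by positivity) (by positivity)]
  have : b / π * (π / b) = 1 := by field_simp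
  rw [this, Real.one_rpow]

theorem pow_aux3 {b : ℝ} (hb : 0 < b) :
    (b / π) ^ (3 / 2 : ℝ) * (π / (b / 2)) ^ (3 / 2 : ℝ) = 2 * √2 := by
  have hpi := Real.pi_pos
  rw [← Real.mul_rpow (by positivity) (by positivity)]
  have : b / π * (π / (b / 2)) = 2 := by field_simp
  rw [this]
  have : (3 / 2 : ℝ) = 1 + 1 / 2 := by norm_num
  rw [this, Real.rpow_add (by norm_num), Real.rpow_one, Real.sqrt_eq_rpow]

theorem equation {b : ℝ} (hb : 0 < b) (x : E3) :
    -(Δ (U b) x) + 4 * (-(b * eps)) * U b x = (1 - U b x) * V b x +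
      2 * (-(b * eps)) * rho b * ∫ y, U b y * U b (x - y) := by
  rw [conv_U hb, mul_V, laplacian_U]
  have h2 : (0 : ℝ) < √2 := by positivity
  have h1 : 2 * (-(b * eps)) * rho b * (exp 6 * (π / (2 * b)) ^ (3 / 2 : ℝ) * exp (W b x)) =
      -(b * kap * exp (W b x)) := by
    unfold rho
    have e1 : 2 * (-(b * eps)) * ((b / π) ^ (3 / 2 : ℝ) * exp (-4)) *
        (exp 6 * (π / (2 * b)) ^ (3 / 2 : ℝ) * exp (W b x)) =
        2 * (-(b * eps)) * ((b / π) ^ (3 / 2 : ℝ) * (π / (2 * b)) ^ (3 / 2 : ℝ)) *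
          (exp 6 * exp (-4)) * exp (W b x) := by ring
    have e2 : exp 6 * exp (-4) = exp 2 := by rw [← exp_add]; norm_num
    rw [e1, pow_aux hb, e2, ← kap_eq]
    field_simp
  rw [h1]
  have h3 : b * ‖x‖ ^ 2 = 4 - 2 * W b x := by
    unfold W
    ring
  rw [U_eq]
  unfold S
  have hk : kap = 10 + 4 * eps := rfl
  have e3 : -((4 * b ^ 2 * ‖x‖ ^ 2 - 6 * b) * exp (W b x) ^ 2) + 4 * -(b * eps) * exp (W b x) ^ 2 =
      -((4 * b * (b * ‖x‖ ^ 2) - 6 * b) * exp (W b x) ^ 2) + 4 * -(b * eps) * exp (W b x) ^ 2 := by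
    ring
  rw [e3, h3, hk]
  ring

theorem energy_identity {b : ℝ} (hb : 0 < b) :
    -(b * eps) = rho b / 2 * ∫ x, (1 - U b x) * V b x := by
  have hS : ∀ x : E3, (1 - U b x) * V b x =
      (6 * b - 4 * b * eps) * exp 4 * exp (-b * ‖x‖ ^ 2) -
        4 * b ^ 2 * exp 4 * (‖x‖ ^ 2 * exp (-b * ‖x‖ ^ 2)) +
        b * kap * exp 2 * exp (-(b / 2) * ‖x‖ ^ 2) := by
    intro x
    rw [mul_V]
    have h3 : W b x = (4 - b * ‖x‖ ^ 2) / 2 := rfl
    have e1 : exp (W b x) ^ 2 = exp 4 * exp (-b * ‖x‖ ^ 2) := by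
      rw [← U_eq]
      unfold U
      rw [← exp_add]
      congr 1
      ring
    have e2 : exp (W b x) = exp 2 * exp (-(b / 2) * ‖x‖ ^ 2) := by
      rw [← exp_add]
      congr 1
      unfold W
      ring
    have e3 : S b x = b * kap * exp (W b x) + b * (-kap + 8 * W b x) * exp (W b x) ^ 2 := by
      unfold S
      ring
    rw [e3, e1, e2, h3]
    unfold kap
    ring
  simp only [hS]
  have i1 := (integrable_gauss hb).const_mul ((6 * b - 4 * b * eps) * exp 4)
  have i2 := (integrable_sq_gauss hb).const_mul (4 * b ^ 2 * exp 4)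
  have i3 := (integrable_gauss (half_pos hb)).const_mul (b * kap * exp 2)
  have i12 : Integrable fun x : E3 => (6 * b - 4 * b * eps) * exp 4 * exp (-b * ‖x‖ ^ 2) -
      4 * b ^ 2 * exp 4 * (‖x‖ ^ 2 * exp (-b * ‖x‖ ^ 2)) := i1.sub i2
  rw [integral_add i12 i3, integral_sub i1 i2, integral_const_mul, integral_const_mul,
    integral_const_mul, integral_sq_gauss hb, integral_gauss hb, integral_gauss (half_pos hb)]
  have p2 := pow_aux2 hb
  have p3 := pow_aux3 hb
  have h2 : (0 : ℝ) < √2 := by positivity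
  have hs : √2 ^ 2 = 2 := Real.sq_sqrt (by norm_num)
  have e44 : exp (-4) * exp 4 = 1 := by rw [← exp_add]; norm_num
  have e42 : exp (-4) * exp 2 * exp 2 = 1 := by rw [← exp_add, ← exp_add]; norm_num
  set P := (π / b) ^ (3 / 2 : ℝ) with hP
  set P2 := (π / (b / 2)) ^ (3 / 2 : ℝ) with hP2
  set R := (b / π) ^ (3 / 2 : ℝ) with hR
  unfold rho
  rw [← hR]
  have f1 : R * exp (-4) / 2 * ((6 * b - 4 * b * eps) * exp 4 * P -
      4 * b ^ 2 * exp 4 * (3 / (2 * b) * P) + b * kap * exp 2 * P2) =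
      (exp (-4) * exp 4) * (R * P) / 2 * ((6 * b - 4 * b * eps) - 4 * b ^ 2 * (3 / (2 * b))) +
      b * kap / 2 * (R * P2) * (exp (-4) * exp 2) := by ring
  rw [f1, e44, p2, p3]
  have f2 : kap * √2 = eps * exp 2 := by
    rw [← kap_eq]
    field_simp
  have f3 : b * kap / 2 * (2 * √2) * (exp (-4) * exp 2) = b * (kap * √2) * (exp (-4) * exp 2) := by
    ring
  rw [f3, f2]
  have f4 : b * (eps * exp 2) * (exp (-4) * exp 2) = b * eps * (exp (-4) * exp 2 * exp 2) := by ring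
  rw [f4, e42]
  field_simp
  ring

theorem solution {b : ℝ} (hb : 0 < b) : IsSimpleSolution (V b) (rho b) (U b) (-(b * eps)) :=
  ⟨contDiff_U b, integrable_U hb, equation hb, energy_identity hb⟩

theorem measurable_V (b : ℝ) : Measurable (V b) := by
  unfold V S U W
  fun_prop

theorem integrable_V {b : ℝ} (hb : 0 < b) : Integrable (V b) := by
  have h := (integrable_gauss (half_pos hb)).const_mul (b * kap * exp 2)
  refine h.mono' (measurable_V b).aestronglyMeasurable (ae_of_all _ fun x => ?_)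
  obtain ⟨h1, h2⟩ := V_bounds hb x
  rw [Real.norm_of_nonneg h1]
  refine h2.trans (le_of_eq ?_)
  have e2 : exp (W b x) = exp 2 * exp (-(b / 2) * ‖x‖ ^ 2) := by
    rw [← exp_add]
    congr 1
    unfold W
    ring
  rw [e2]
  ring

theorem V_radial (b : ℝ) {x y : E3} (h : ‖x‖ = ‖y‖) : V b x = V b y := by
  unfold V S U W
  rw [h]

theorem perPot_nonneg {v : E3 → ℝ} (hv : ∀ x, 0 ≤ v x) (L : ℝ) (x : E3) : 0 ≤ perPot v L x :=
  tsum_nonneg fun _ => hv _

theorem energy_nonneg {v : E3 → ℝ} (hv : ∀ x, 0 ≤ v x) (N : ℕ) (L : ℝ)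
    (ψ : (Fin N → E3) → ℂ) : 0 ≤ energy v N L ψ := by
  apply integral_nonneg
  intro x
  have h1 : 0 ≤ ∑ i, ∑ j ∈ Finset.Ioi i, perPot v L (x i - x j) :=
    Finset.sum_nonneg fun i _ => Finset.sum_nonneg fun j _ => perPot_nonneg hv L _
  have h2 : 0 ≤ ∑ i, ∑ k, ‖fderiv ℝ ψ x (Pi.single i (EuclideanSpace.single k (1 : ℝ)))‖ ^ 2 :=
    Finset.sum_nonneg fun i _ => Finset.sum_nonneg fun j _ => by positivity
  change 0 ≤ _ + _
  positivity

theorem groundEnergy_nonneg {v : E3 → ℝ} (hv : ∀ x, 0 ≤ v x) (N : ℕ) (L : ℝ) :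
    0 ≤ groundEnergy v N L := by
  apply Real.sInf_nonneg
  rintro _ ⟨ψ, -, rfl⟩
  exact energy_nonneg hv N L ψ

theorem rho_surj {ρ : ℝ} (hρ : 0 < ρ) : ∃ b, 0 < b ∧ rho b = ρ := by
  have hpi := Real.pi_pos
  refine ⟨π * (ρ * exp 4) ^ (2 / 3 : ℝ), by positivity, ?_⟩
  unfold rho
  have h1 : π * (ρ * exp 4) ^ (2 / 3 : ℝ) / π = (ρ * exp 4) ^ (2 / 3 : ℝ) := by field_simp
  rw [h1, ← Real.rpow_mul (by positivity)]
  norm_num
  rw [mul_assoc, ← exp_add]
  norm_num

theorem main {ρ : ℝ} (hρ : 0 < ρ) : ∃ v : E3 → ℝ, (∀ x, 0 ≤ v x) ∧ Integrable v ∧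
    (∀ x y, ‖x‖ = ‖y‖ → v x = v y) ∧ (∃ C, ∀ x, v x ≤ C) ∧ ∃ (u : E3 → ℝ) (e : ℝ),
      IsSimpleSolution v ρ u e ∧ (∀ x, 0 < u x) ∧ e < 0 ∧ (∀ N L, 0 ≤ groundEnergy v N L) ∧
      ∀ e₀, IsEnergyPerParticle v ρ e₀ → e < e₀ := by
  obtain ⟨b, hb, rfl⟩ := rho_surj hρ
  have he : -(b * eps) < 0 := by
    have := eps_pos
    rw [neg_lt_zero]
    positivity
  refine ⟨V b, fun x => (V_bounds hb x).1, integrable_V hb, fun x y h => V_radial b h,
    ⟨b * kap * exp 2, fun x => ?_⟩, U b, -(b * eps), solution hb, fun x => exp_pos _, he,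
    groundEnergy_nonneg fun x => (V_bounds hb x).1, fun e₀ h => ?_⟩
  · refine (V_bounds hb x).2.trans ?_
    have hk := kap_gt
    apply mul_le_mul_of_nonneg_left _ (by positivity)
    exact exp_le_exp.2 (W_le hb x)
  · refine he.trans_le (ge_of_tendsto' h fun N => ?_)
    exact div_nonneg (groundEnergy_nonneg (fun x => (V_bounds hb x).1) _ _) (Nat.cast_nonneg _)

end Q198.SE
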